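import Pool.Agent.UMG.StmtsB

/-!
# Row TRB: the structure of a code as a list of bundles
-/

set_option autoImplicit false

namespace Pool.Agent.UMG.B.H25

open Finset Pool.Agent.UMG Pool.Agent.UMG.B

theorem trA (l v : ℕ) (p : List ℕ) : ∃ f : Hp l p ≃ HB (p.map (fun i => (v, l, i))),
    (∀ h, nuB (p.map (fun i => (v, l, i))) (f h) = v + (nup l p h : ℕ)) ∧
      ∀ h, f (gp l p h) = gB (p.map (fun i => (v, l, i))) (f h) := by
  induction p with
  | nil => exact ⟨Equiv.refl Empty, fun h => h.elim, fun h => h.elim⟩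
  | cons i p ih =>
    obtain ⟨f, h1, h2⟩ := ih
    refine ⟨(Equiv.sumCongr (Equiv.refl (Fin (l * i))) f :
      Fin (l * i) ⊕ Hp l p ≃ Fin (l * i) ⊕ HB (p.map (fun i => (v, l, i)))), ?_, ?_⟩
    · rintro (t | h)
      · rfl
      · exact h1 h
    · rintro (t | h)
      · rfl
      · exact congrArg Sum.inr (h2 h)

theorem trB (L1 L2 : List (ℕ × ℕ × ℕ)) : ∃ f : HB L1 ⊕ HB L2 ≃ HB (L1 ++ L2),
    (∀ h, nuB (L1 ++ L2) (f h) = Sum.elim (nuB L1) (nuB L2) h) ∧
      ∀ h, f (Equiv.sumCongr (gB L1) (gB L2) h) = gB (L1 ++ L2) (f h) := by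
  induction L1 with
  | nil =>
    refine ⟨(Equiv.emptySum Empty (HB L2) : Empty ⊕ HB L2 ≃ HB L2), ?_, ?_⟩
    · rintro (h | h)
      · exact h.elim
      · rfl
    · rintro (h | h)
      · exact h.elim
      · rfl
  | cons b L1 ih =>
    obtain ⟨f, h1, h2⟩ := ih
    refine ⟨((Equiv.sumAssoc (Fin (bsz b)) (HB L1) (HB L2)).trans
      (Equiv.sumCongr (Equiv.refl (Fin (bsz b))) f) :
      (Fin (bsz b) ⊕ HB L1) ⊕ HB L2 ≃ Fin (bsz b) ⊕ HB (L1 ++ L2)), ?_, ?_⟩
    · rintro ((t | h) | h)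
      · rfl
      · exact h1 (Sum.inl h)
      · exact h1 (Sum.inr h)
    · rintro ((t | h) | h)
      · rfl
      · exact congrArg Sum.inr (h2 (Sum.inl h))
      · exact congrArg Sum.inr (h2 (Sum.inr h))

theorem trb : TrbStmt := by
  intro c
  induction c with
  | nil =>
    intro v
    have : IsEmpty (Vc []) := inferInstanceAs (IsEmpty Empty)
    have : IsEmpty (Fin (([] : Code).map (fun x => x.1)).sum) := inferInstanceAs (IsEmpty (Fin 0))
    exact ⟨Equiv.equivOfIsEmpty _ _, Equiv.refl Empty, fun h => h.elim, fun h => h.elim⟩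
  | cons a c ih =>
    intro v
    obtain ⟨l, p⟩ := a
    obtain ⟨e, f, h1, h2⟩ := ih (v + l)
    obtain ⟨fA, a1, a2⟩ := trA l v p
    obtain ⟨fB, b1, b2⟩ := trB (p.map (fun i => (v, l, i))) (bund (v + l) c)
    refine ⟨((Equiv.sumCongr (Equiv.refl (Fin l)) e).trans finSumFinEquiv :
      Fin l ⊕ Vc c ≃ Fin (l + (c.map (fun x => x.1)).sum)),
      ((Equiv.sumCongr fA f).trans fB :
        Hp l p ⊕ Hc c ≃ HB (p.map (fun i => (v, l, i)) ++ bund (v + l) c)), ?_, ?_⟩
    · rintro (h | h)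
      · exact (b1 (Sum.inl (fA h))).trans (a1 h)
      · refine (b1 (Sum.inr (f h))).trans ((h1 h).trans ?_)
        show v + l + (e (nuc c h) : ℕ) = v + (l + (e (nuc c h) : ℕ))
        omega
    · rintro (h | h)
      · have e1 : fB (Sum.inl (fA (gp l p h))) = fB (Sum.inl (gB _ (fA h))) := by rw [a2 h]
        exact e1.trans (b2 (Sum.inl (fA h)))
      · have e1 : fB (Sum.inr (f (gc c h))) = fB (Sum.inr (gB _ (f h))) := by rw [h2 h]
        exact e1.trans (b2 (Sum.inr (f h)))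

end Pool.Agent.UMG.B.H25
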