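import Pool.Agent.UMG.StmtsD

/-!
# Row FIN: the result of block D
-/

set_option autoImplicit false

namespace Pool.Agent.UMG.D.H25

open Finset Pool.Agent.UMG

theorem fst_val (h : ℕ → ℕ) (L R r : ℕ) : fst h L R r = 0 ∨ ∃ u, fst h L R r = h u := by
  induction R with
  | zero => exact Or.inl rfl
  | succ R ih =>
    have e : fst h L (R + 1) r = if fst h L R r ≠ 0 then fst h L R r
        else h (r / 2 ^ (L * R) % 2 ^ L) := rfl
    rw [e]
    by_cases hc : fst h L R r ≠ 0
    · rw [if_pos hc]
      exact ih
    · rw [if_neg hc]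
      exact Or.inr ⟨_, rfl⟩

theorem out_pos (M : ℕ) {n : ℕ} (A : Fin n → Fin n → ℕ) : out M A ≠ 0 := by
  unfold out
  omega

theorem trial_filter (K : ℕ) (d : List ℕ) (N : ℕ) (hN : TT K d ≤ N) (P : ℕ → Prop)
    [DecidablePred P] (h0 : ¬ P 0) :
    ((range N).filter (fun u => P (trial K d u))) =
      ((range (TT K d)).filter (fun u => P (algo K d u))) := by
  ext u
  simp only [Finset.mem_filter, Finset.mem_range]
  unfold trial
  constructor
  · rintro ⟨h1, h2⟩
    by_cases hu : u < TT K d
    · rw [if_pos hu] at h2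
      exact ⟨hu, h2⟩
    · rw [if_neg hu] at h2
      exact absurd h2 h0
  · rintro ⟨h1, h2⟩
    rw [if_pos h1]
    exact ⟨h1.trans_le hN, h2⟩

theorem fin (hRAT : RatStmt) (hEXB : ExbStmt) (hALO : AloStmt) (hFSZ : FszStmt)
    (hFSP : FspStmt) (hFAI : FaiStmt) : FinStmt := by
  classical
  intro η h1 h2
  obtain ⟨K, A, hK, hR⟩ := hRAT η h1 h2
  refine ⟨K, A, hK, fun d hd hg s => ?_⟩
  obtain ⟨hr1, hr2⟩ := hR d hd hg
  have hTL : TT K d < 2 ^ Nat.size (TT K d) := Nat.lt_size_self _
  have hTL2 : 2 ^ Nat.size (TT K d) ≤ 2 * TT K d := by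
    have h3 : 0 < Nat.size (TT K d) := Nat.size_pos.2 hr2
    obtain ⟨m, hm⟩ : ∃ m, Nat.size (TT K d) = m + 1 := ⟨Nat.size (TT K d) - 1, by omega⟩
    have h4 : 2 ^ m ≤ TT K d := Nat.lt_size.1 (by omega)
    rw [hm, pow_succ]
    omega
  constructor
  · intro B hB B' hB'
    have h0 : ∀ B : Fin d.length → Fin d.length → ℕ, ¬ Hit d.sum (Om d) B 0 := by
      rintro B ⟨A', -, -, h⟩
      exact out_pos _ _ h.symm
    have hc : ∀ B ∈ Om d, ((range (2 ^ Nat.size (TT K d))).filter
        (fun u => Hit d.sum (Om d) B (trial K d u))).card = SCL K d * gam d := by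
      intro B hB
      rw [trial_filter K d _ hTL.le (Hit d.sum (Om d) B) (h0 B)]
      have h3 := hEXB K d B hd hB
      rw [← h3]
    exact hFSP (trial K d) (Nat.size (TT K d)) (RR A d s) (Hit d.sum (Om d) B)
      (Hit d.sum (Om d) B') (h0 B) (h0 B') (by
        have e1 := hc B hB
        have e2 := hc B' hB'
        rw [← e2] at e1
        exact e1)
  · have hsub : ((range (2 ^ (Nat.size (TT K d) * RR A d s))).filter
        (fun r => ¬ ∃ A' ∈ Om d, alg K A d s r = out d.sum A')) ⊆
        ((range (2 ^ (Nat.size (TT K d) * RR A d s))).filter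
          (fun r => fst (trial K d) (Nat.size (TT K d)) (RR A d s) r = 0)) := by
      intro r hr
      rw [Finset.mem_filter] at hr ⊢
      refine ⟨hr.1, ?_⟩
      rcases fst_val (trial K d) (Nat.size (TT K d)) (RR A d s) r with h3 | ⟨u, hu⟩
      · exact h3
      · by_contra h4
        apply hr.2
        rw [hu] at h4
        unfold trial at h4
        by_cases h5 : u < TT K d
        · rw [if_pos h5] at h4
          rcases hALO K d u hd h5 with h6 | ⟨A', hA', h6⟩
          · exact absurd h6 h4
          · refine ⟨A', hA', ?_⟩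
            rw [← h6]
            show fst (trial K d) (Nat.size (TT K d)) (RR A d s) r = algo K d u
            rw [hu]
            unfold trial
            rw [if_pos h5]
        · rw [if_neg h5] at h4
          exact absurd rfl h4
    have hle := Finset.card_le_card hsub
    have hz := hFSZ (trial K d) (Nat.size (TT K d)) (RR A d s)
    have hle2 : ((range (2 ^ (Nat.size (TT K d) * RR A d s))).filter
        (fun r => ¬ ∃ A' ∈ Om d, alg K A d s r = out d.sum A')).card ≤
        ((range (2 ^ Nat.size (TT K d))).filter (fun u => trial K d u = 0)).card ^ RR A d s := by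
      refine hle.trans (le_of_eq ?_)
      rw [← hz]
    set f := ((range (2 ^ Nat.size (TT K d))).filter (fun u => trial K d u = 0)).card with hf
    have hp := trial_filter K d _ hTL.le (fun y => y ≠ 0) (fun h => h rfl)
    have hfp : f + ((range (TT K d)).filter (fun u => algo K d u ≠ 0)).card =
        2 ^ Nat.size (TT K d) := by
      rw [← hp, hf]
      have h6 := Finset.card_filter_add_card_filter_not (s := range (2 ^ Nat.size (TT K d)))
        (fun u => trial K d u = 0)
      rw [Finset.card_range] at h6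
      exact h6
    have h7 := hFAI (Nat.size (TT K d)) ((d.sum + 2) ^ A) f
      ((range (TT K d)).filter (fun u => algo K d u ≠ 0)).card s hfp (by
        refine hTL2.trans ?_
        rw [mul_assoc]
        exact Nat.mul_le_mul_left 2 hr1) (Nat.one_le_pow _ _ (by omega))
    refine le_trans (Nat.mul_le_mul_left _ hle2) ?_
    exact h7

end Pool.Agent.UMG.D.H25
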