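import Pool.Agent.UMG.StmtsA

/-!
# Row FIR: the first parts of the exponents
-/

set_option autoImplicit false

namespace Pool.Agent.UMG.A.H25

open Finset Pool.Agent.UMG

theorem sum_bd (d : List ℕ) (f : ℕ → ℝ) (c : ℝ) (h : ∀ k ∈ d, f k ≤ c * k) :
    (d.map f).sum ≤ c * (d.sum : ℝ) := by
  induction d with
  | nil => simp
  | cons k t ih =>
    rw [List.map_cons, List.sum_cons, List.sum_cons, Nat.cast_add, mul_add]
    exact add_le_add (h k List.mem_cons_self) (ih (fun j hj => h j (List.mem_cons_of_mem _ hj)))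

/-- the geometric series -/
theorem geo {x : ℕ → ℝ} {B r t : ℝ} {p q M : ℕ} (hB : 0 ≤ B) (hp : 1 ≤ p) (hq : q ≤ M + 1)
    (hx : ∀ i, 1 ≤ i → i ≤ M → x i ≤ B) (hr : 0 ≤ r) (hrt : r ≤ t) (ht : t ≤ 1 / 2) :
    ∑ i ∈ Ico p q, x i * r ^ i / i ≤ B * (2 * t ^ p) := by
  have ht0 : 0 ≤ t := hr.trans hrt
  calc ∑ i ∈ Ico p q, x i * r ^ i / i ≤ ∑ i ∈ Ico p q, B * t ^ i := by
        apply Finset.sum_le_sum
        intro i hi
        rw [Finset.mem_Ico] at hi
        have hi1 : (1 : ℝ) ≤ (i : ℝ) := by exact_mod_cast hp.trans hi.1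
        rw [div_le_iff₀ (by linarith)]
        have e1 : x i * r ^ i ≤ B * t ^ i :=
          (mul_le_mul_of_nonneg_right (hx i (hp.trans hi.1) (by omega)) (pow_nonneg hr i)).trans
            (mul_le_mul_of_nonneg_left (pow_le_pow_left₀ hr hrt i) hB)
        have e2 : 0 ≤ B * t ^ i := mul_nonneg hB (pow_nonneg ht0 i)
        nlinarith
    _ = B * ∑ i ∈ Ico p q, t ^ i := by rw [Finset.mul_sum]
    _ ≤ B * (2 * t ^ p) := by
        apply mul_le_mul_of_nonneg_left _ hB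
        refine (geom_sum_Ico_le_of_lt_one ht0 (by linarith)).trans ?_
        rw [div_le_iff₀ (by linarith)]
        have : 0 ≤ t ^ p := pow_nonneg ht0 p
        nlinarith

theorem mem_le_sum {d : List ℕ} {k : ℕ} (hk : k ∈ d) : k ≤ d.sum :=
  List.single_le_sum (fun _ _ => Nat.zero_le _) k hk

theorem fir : FirStmt := by
  intro η K hη hη2 hK
  set e : ℝ := Real.exp 1 with he
  have he0 : 0 < e := Real.exp_pos 1
  refine ⟨2 * K * e ^ (K + 1) + 2 * K * e ^ 2, ⌈(2 * e) ^ (1 / η)⌉₊ + 1, ?_⟩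
  intro d x hg hM hx
  obtain ⟨hx0, hx1, hx2⟩ := hx
  set M : ℝ := (d.sum : ℝ) with hMd
  have hM1 : (1 : ℝ) ≤ M := by
    have : 1 ≤ d.sum := le_trans (by omega) hM
    rw [hMd]
    exact_mod_cast this
  have hM0 : 0 < M := by linarith
  have hMe : (2 * e) ^ (1 / η) ≤ M := by
    have h1 : (2 * e) ^ (1 / η) ≤ (⌈(2 * e) ^ (1 / η)⌉₊ : ℝ) := Nat.le_ceil _
    have h2 : ((⌈(2 * e) ^ (1 / η)⌉₊ + 1 : ℕ) : ℝ) ≤ M := by
      rw [hMd]
      exact_mod_cast hM
    push_cast at h2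
    linarith
  set ρ : ℝ := e * M ^ (-η) with hρ
  have hρ0 : 0 < ρ := mul_pos he0 (Real.rpow_pos_of_pos hM0 _)
  have hρ2 : ρ ≤ 1 / 2 := by
    have h1 : ((2 * e) ^ (1 / η)) ^ η ≤ M ^ η :=
      Real.rpow_le_rpow (Real.rpow_nonneg (by positivity) _) hMe hη.le
    rw [← Real.rpow_mul (by positivity), one_div_mul_cancel hη.ne', Real.rpow_one] at h1
    rw [hρ, Real.rpow_neg hM0.le, ← div_eq_mul_inv, div_le_iff₀ (Real.rpow_pos_of_pos hM0 _)]
    linarith
  set s : ℝ := Real.sqrt M with hs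
  have hs0 : 0 < s := Real.sqrt_pos.2 hM0
  have hss : s * s = M := Real.mul_self_sqrt hM0.le
  have hs1 : 1 ≤ s := by
    rw [hs, Real.one_le_sqrt]
    exact hM1
  have hsr : s = M ^ (1 / 2 : ℝ) := Real.sqrt_eq_rpow M
  have hx1pos : 0 < x 1 := lt_of_lt_of_le (div_pos hs0 he0) hx2
  -- the bounds of the ratio
  have hrt : ∀ k : ℕ, (k : ℝ) / x 1 ≤ e * k / s := by
    intro k
    rw [div_le_div_iff₀ hx1pos hs0]
    rw [div_le_iff₀ he0] at hx2
    have : (0 : ℝ) ≤ k := Nat.cast_nonneg k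
    nlinarith
  have hks : ∀ k ∈ d, (k : ℝ) / s ≤ M ^ (-η) := by
    intro k hk
    rw [div_le_iff₀ hs0, hsr, ← Real.rpow_add hM0]
    have e1 : -η + 1 / 2 = 1 / 2 - η := by ring
    rw [e1]
    exact (hg.1 k hk).2
  have htρ : ∀ k ∈ d, e * k / s ≤ ρ := by
    intro k hk
    rw [mul_div_assoc]
    exact mul_le_mul_of_nonneg_left (hks k hk) he0.le
  have hr0 : ∀ k : ℕ, 0 ≤ (k : ℝ) / x 1 := fun k => div_nonneg (Nat.cast_nonneg k) hx1pos.le
  have hKs : 0 ≤ (K : ℝ) * s := mul_nonneg (Nat.cast_nonneg K) hs0.le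
  have hC1 : 0 ≤ 2 * (K : ℝ) * e ^ (K + 1) := by positivity
  have hC2 : 0 ≤ 2 * (K : ℝ) * e ^ 2 := by positivity
  constructor
  · -- first part
    have h1 : (d.map (fun k => ∑ i ∈ Ico (K + 1) (k + 1), x i * ((k : ℝ) / x 1) ^ i / i)).sum ≤
        (K * s * (2 * ρ ^ (K + 1))) * M := by
      apply sum_bd
      intro k hk
      have hk1 : (1 : ℝ) ≤ (k : ℝ) := by
        have := (hg.1 k hk).1
        exact_mod_cast (by omega : 1 ≤ k)
      have h2 := geo (q := k + 1) (M := d.sum) (p := K + 1) hKs (by omega)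
        (by have := mem_le_sum hk; omega) hx1 (hr0 k) ((hrt k).trans (htρ k hk)) hρ2
      refine h2.trans ?_
      have : 0 ≤ K * s * (2 * ρ ^ (K + 1)) := by positivity
      nlinarith
    have h3 : ρ ^ (K + 1) ≤ e ^ (K + 1) * (M * M)⁻¹ := by
      rw [hρ, mul_pow]
      apply mul_le_mul_of_nonneg_left _ (by positivity)
      rw [← Real.rpow_natCast, ← Real.rpow_mul hM0.le]
      have e1 : (M * M)⁻¹ = M ^ (-2 : ℝ) := by
        rw [Real.rpow_neg hM0.le, ← pow_two]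
        norm_cast
      rw [e1]
      apply Real.rpow_le_rpow_of_exponent_le hM1
      push_cast
      nlinarith
    have h4 : (K * s * (2 * ρ ^ (K + 1))) * M ≤
        (K * s * (2 * (e ^ (K + 1) * (M * M)⁻¹))) * M := by
      apply mul_le_mul_of_nonneg_right _ hM0.le
      apply mul_le_mul_of_nonneg_left _ hKs
      linarith
    have h5 : (K * s * (2 * (e ^ (K + 1) * (M * M)⁻¹))) * M = 2 * K * e ^ (K + 1) * (s / M) := by
      field_simp
    have h6 : s / M ≤ 1 := by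
      rw [div_le_one hM0, ← hss]
      nlinarith
    have h7 : 2 * K * e ^ (K + 1) * (s / M) ≤ 2 * K * e ^ (K + 1) := by
      nlinarith
    linarith
  · -- second part
    have h1 : (d.map (fun k => ∑ i ∈ Icc 2 k, x i * ((k : ℝ) / x 1) ^ i / i)).sum ≤
        (2 * K * e ^ 2 * M ^ (-η)) * M := by
      apply sum_bd
      intro k hk
      have h2 := geo (q := k + 1) (M := d.sum) (p := 2) hKs (by omega)
        (by have := mem_le_sum hk; omega) hx1 (hr0 k) (hrt k) ((htρ k hk).trans hρ2)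
      have e1 : Icc 2 k = Ico 2 (k + 1) := by
        ext i
        simp only [Finset.mem_Icc, Finset.mem_Ico]
        omega
      rw [e1]
      refine h2.trans ?_
      have e2 : (K : ℝ) * s * (2 * (e * k / s) ^ 2) = 2 * K * e ^ 2 * k * (k / s) := by
        field_simp
      rw [e2]
      have h3 : 2 * (K : ℝ) * e ^ 2 * k * (k / s) ≤ 2 * K * e ^ 2 * k * M ^ (-η) :=
        mul_le_mul_of_nonneg_left (hks k hk) (by positivity)
      refine h3.trans (le_of_eq ?_)
      ring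
    have h2 : M ^ (-η) * M = M ^ (1 - η) := by
      have e1 : (1 - η) = -η + 1 := by ring
      rw [e1, Real.rpow_add hM0, Real.rpow_one]
    have h3 : (2 * K * e ^ 2 * M ^ (-η)) * M = 2 * K * e ^ 2 * M ^ (1 - η) := by
      rw [mul_assoc, h2]
    rw [h3] at h1
    refine h1.trans (mul_le_mul_of_nonneg_right (by linarith) (Real.rpow_nonneg hM0.le _))

end Pool.Agent.UMG.A.H25
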