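import Pool.Agent.UMG.StmtsA

/-!
# Row SMA: small sums of degrees
-/

set_option autoImplicit false

namespace Pool.Agent.UMG.A.H25

open Finset Pool.Agent.UMG

theorem csum_nonneg : ∀ (n k : ℕ), k ≤ n → ∀ Φ : List ℕ → ℝ, (∀ p, 0 ≤ Φ p) → 0 ≤ csum k Φ := by
  intro n
  induction n with
  | zero =>
    intro k hk Φ h
    have : k = 0 := by omega
    subst this
    rw [csum]
    exact h _
  | succ n ih =>
    intro k hk Φ h
    match k with
    | 0 =>
      rw [csum]
      exact h _
    | k + 1 =>
      rw [csum]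
      apply Finset.sum_nonneg
      intro i _
      exact mul_nonneg (Nat.cast_nonneg _) (ih (k - i) (by omega) _ (fun p => h _))

theorem csum_ge : ∀ (k : ℕ) (Φ : List ℕ → ℝ), (∀ p, 0 ≤ Φ p) →
    Φ (List.replicate k 1) ≤ csum k Φ := by
  intro k
  induction k with
  | zero =>
    intro Φ h
    rw [csum]
    exact le_refl _
  | succ k ih =>
    intro Φ h
    rw [csum]
    have h1 : Φ (List.replicate (k + 1) 1) ≤
        (k.descFactorial 0 : ℝ) * csum (k - 0) (fun p => Φ ((0 + 1) :: p)) := by
      rw [Nat.descFactorial_zero, Nat.cast_one, one_mul, Nat.sub_zero]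
      exact ih (fun p => Φ ((0 + 1) :: p)) (fun p => h _)
    refine h1.trans ?_
    apply Finset.single_le_sum
      (f := fun i => (k.descFactorial i : ℝ) * csum (k - i) (fun p => Φ ((i + 1) :: p)))
    · intro i _
      exact mul_nonneg (Nat.cast_nonneg _) (csum_nonneg k (k - i) (by omega) _ (fun p => h _))
    · exact Finset.mem_range.2 (by omega)

theorem gsum_nonneg : ∀ (n : ℕ) (d : List ℕ), d.length ≤ n → ∀ Ψ : Code → ℝ, (∀ c, 0 ≤ Ψ c) →
    0 ≤ gsum d Ψ := by
  intro n
  induction n with
  | zero =>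
    intro d hd Ψ h
    have : d = [] := List.length_eq_zero_iff.1 (by omega)
    subst this
    rw [gsum]
    exact h _
  | succ n ih =>
    intro d hd Ψ h
    match d with
    | [] =>
      rw [gsum]
      exact h _
    | k :: t =>
      rw [gsum]
      apply Finset.sum_nonneg
      intro i _
      refine mul_nonneg (by positivity) (csum_nonneg k k (le_refl k) _ (fun p => ?_))
      refine ih _ ?_ _ (fun c => h _)
      rw [List.length_drop]
      rw [List.length_cons] at hd
      omega

/-- the code of the identity -/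
def c0 (d : List ℕ) : Code := d.map (fun k => (1, List.replicate k 1))

theorem gsum_ge : ∀ (d : List ℕ) (Ψ : Code → ℝ), (∀ c, 0 ≤ Ψ c) → Ψ (c0 d) ≤ gsum d Ψ := by
  intro d
  induction d with
  | nil =>
    intro Ψ h
    rw [gsum]
    exact le_refl _
  | cons k t ih =>
    intro Ψ h
    rw [gsum]
    have h1 : Ψ (c0 (k :: t)) ≤ ((t.count k).descFactorial 0 : ℝ) * (k.factorial : ℝ) ^ 0 *
        csum k (fun p => gsum (t.drop 0) (fun c => Ψ ((0 + 1, p) :: c))) := by
      rw [Nat.descFactorial_zero, Nat.cast_one, one_mul, pow_zero, one_mul, List.drop_zero]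
      have h2 := csum_ge k (fun p => gsum t (fun c => Ψ ((0 + 1, p) :: c)))
        (fun p => gsum_nonneg t.length t (le_refl _) _ (fun c => h _))
      refine le_trans ?_ h2
      exact ih (fun c => Ψ ((0 + 1, List.replicate k 1) :: c)) (fun c => h _)
    refine h1.trans ?_
    apply Finset.single_le_sum (f := fun i => ((t.count k).descFactorial i : ℝ) *
      (k.factorial : ℝ) ^ i * csum k (fun p => gsum (t.drop i) (fun c => Ψ ((i + 1, p) :: c))))
    · intro i _
      exact mul_nonneg (by positivity) (csum_nonneg k k (le_refl k) _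
        (fun p => gsum_nonneg _ (t.drop i) (le_refl _) _ (fun c => h _)))
    · exact Finset.mem_range.2 (by omega)

theorem bund_c0 (d : List ℕ) : ∀ v, (∀ b ∈ bund v (c0 d), bsz b = 1) ∧
    (bund v (c0 d)).length = d.sum := by
  induction d with
  | nil =>
    intro v
    simp [c0, bund]
  | cons k t ih =>
    intro v
    have e : bund v (c0 (k :: t)) =
        (List.replicate k 1).map (fun i => (v, 1, i)) ++ bund (v + 1) (c0 t) := rfl
    rw [e]
    refine ⟨?_, ?_⟩
    · intro b hb
      rcases List.mem_append.1 hb with h | h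
      · rw [List.map_replicate] at h
        rw [List.eq_of_mem_replicate h]
        rfl
      · exact (ih (v + 1)).1 b h
    · rw [List.length_append, List.length_map, List.length_replicate, (ih (v + 1)).2,
        List.sum_cons]

theorem cnt_one (d : List ℕ) : cnt (c0 d) 1 = d.sum := by
  unfold cnt
  rw [← (bund_c0 d 0).2, List.countP_eq_length]
  intro b hb
  exact decide_eq_true ((bund_c0 d 0).1 b hb)

theorem cnt_ne (d : List ℕ) {j : ℕ} (hj : j ≠ 1) : cnt (c0 d) j = 0 := by
  unfold cnt
  rw [List.countP_eq_zero]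
  intro b hb h
  have h1 := of_decide_eq_true h
  rw [(bund_c0 d 0).1 b hb] at h1
  exact hj h1.symm

theorem F_one_even (n : ℕ) : 0 < F 1 (2 * n) := by
  induction n with
  | zero => exact Nat.one_pos
  | succ n ih =>
    have e : 2 * (n + 1) = 2 * n + 2 := by ring
    rw [e, F]
    positivity

theorem rhs_pos (K : ℕ) (d : List ℕ) (hd : Even d.sum) :
    0 < gsum d (fun c => ∏ j ∈ range (K + d.sum), Fr (j + 1) (cnt c (j + 1))) := by
  have h0 : ∀ c : Code, 0 ≤ ∏ j ∈ range (K + d.sum), Fr (j + 1) (cnt c (j + 1)) := fun c =>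
    Finset.prod_nonneg (fun j _ => Nat.cast_nonneg _)
  refine lt_of_lt_of_le ?_ (gsum_ge d _ h0)
  apply Finset.prod_pos
  intro j _
  by_cases hj : j = 0
  · subst hj
    show 0 < Fr (0 + 1) (cnt (c0 d) (0 + 1))
    rw [zero_add, cnt_one]
    obtain ⟨m, hm⟩ := hd
    have e : d.sum = 2 * m := by omega
    rw [e]
    unfold Fr
    exact_mod_cast F_one_even m
  · rw [cnt_ne d (by omega)]
    unfold Fr
    rw [F]
    norm_num

theorem fin_lists (M0 : ℕ) : {d : List ℕ | (∀ k ∈ d, 1 ≤ k) ∧ d.sum ≤ M0}.Finite := by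
  refine ((List.finite_length_le (Fin (M0 + 1)) M0).image
    (fun l : List (Fin (M0 + 1)) => l.map Fin.val)).subset ?_
  rintro d ⟨h1, h2⟩
  have hle : ∀ k ∈ d, k ≤ M0 := fun k hk => (List.single_le_sum (fun _ _ => Nat.zero_le _) k hk).trans h2
  have hlen : ∀ d : List ℕ, (∀ k ∈ d, 1 ≤ k) → d.length ≤ d.sum := by
    intro d
    induction d with
    | nil => intro _; simp
    | cons k t ih =>
      intro h
      rw [List.length_cons, List.sum_cons]
      have e1 := ih (fun k hk => h k (List.mem_cons_of_mem _ hk))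
      have e2 := h k List.mem_cons_self
      omega
  refine ⟨d.map (fun k => ⟨min k M0, by omega⟩), ?_, ?_⟩
  · show (d.map _).length ≤ M0
    rw [List.length_map]
    exact (hlen d h1).trans h2
  · show (d.map (fun k => (⟨min k M0, by omega⟩ : Fin (M0 + 1)))).map Fin.val = d
    rw [List.map_map]
    conv_rhs => rw [← List.map_id d]
    apply List.map_congr_left
    intro k hk
    exact min_eq_left (hle k hk)

theorem sma : SmaStmt := by
  intro K M0
  have h1 : ∀ d : List ℕ, Even d.sum → ∃ A : ℕ, ∀ B : ℕ, A ≤ B →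
      gsum d (fun c => ∏ j ∈ range (K + d.sum), G d.sum K (j + 1) (cnt c (j + 1))) ≤
      ((d.sum : ℝ) + 2) ^ B *
        gsum d (fun c => ∏ j ∈ range (K + d.sum), Fr (j + 1) (cnt c (j + 1))) := by
    intro d hd
    have hp := rhs_pos K d hd
    obtain ⟨A, hA⟩ := pow_unbounded_of_one_lt
      (gsum d (fun c => ∏ j ∈ range (K + d.sum), G d.sum K (j + 1) (cnt c (j + 1))) /
        gsum d (fun c => ∏ j ∈ range (K + d.sum), Fr (j + 1) (cnt c (j + 1))))
      (show (1 : ℝ) < (d.sum : ℝ) + 2 by
        have : (0 : ℝ) ≤ (d.sum : ℝ) := Nat.cast_nonneg _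
        linarith)
    refine ⟨A, fun B hB => ?_⟩
    rw [div_lt_iff₀ hp] at hA
    refine hA.le.trans (mul_le_mul_of_nonneg_right ?_ hp.le)
    apply pow_le_pow_right₀ _ hB
    have : (0 : ℝ) ≤ (d.sum : ℝ) := Nat.cast_nonneg _
    linarith
  choose! f hf using h1
  have hS := fin_lists M0
  refine ⟨hS.toFinset.sup f, fun d hd he hs => ?_⟩
  apply hf d he
  exact Finset.le_sup (f := f) (hS.mem_toFinset.2 ⟨hd, hs⟩)

end Pool.Agent.UMG.A.H25
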